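import Pool.Agent.Helper38.SD.Goals
import Pool.Agent.Helper32.TH.EIMG
import Pool.Agent.Helper60.TH.ETOW

/-!
# Packet SD-A_NS: no place above `p` splits completely in the cyclotomic tower
-/

set_option autoImplicit false

namespace Pool.Agent.Helper69.SD

theorem a_ns : Pool.Agent.Helper38.SD.A_NS := by
  intro p _ K _ _ η om u h τ
  have hp : p.Prime := Fact.out
  obtain ⟨g, hg, hne⟩ := Pool.Agent.Helper32.TH.e_img p K τ (p - 1) (by have := hp.two_le; omega)
  by_contra hcon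
  push Not at hcon
  have h1 : ∀ n : ℕ, (p : ℤ_[p]) ^ (n + 1) ∣ ((u g : ℤ_[p]ˣ) : ℤ_[p]) - 1 := fun n =>
    (h.cut n g).1 (hcon n g hg)
  have h2 : ((u g : ℤ_[p]ˣ) : ℤ_[p]) - 1 = 0 := by
    apply Pool.Agent.Helper60.TH.eq_zero_of_dvd
    intro n
    exact (pow_dvd_pow _ (Nat.le_succ n)).trans (h1 n)
  have h3 : u g = 1 := Units.ext (by rw [Units.val_one]; exact sub_eq_zero.1 h2)
  apply hne
  have h4 : Pool.Agent.Helper16.SD.cyc p g = om g * u g := h.mul g
  change Pool.Agent.Helper16.SD.cyc p g ^ (p - 1) = 1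
  rw [h4, h3, mul_one, h.om_pow]

end Pool.Agent.Helper69.SD
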